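import Pool.Agent.Lib.MP_2dbb30_al.Literal

set_option autoImplicit false

open scoped Manifold ContDiff

namespace Pool.Agent.Results.MP_2dbb30_al.AllPrimes

/-- `L` is self-similar of index `d`: it has a faithful action on the words over an alphabet with
`d` letters by automorphisms of the rooted tree (the root is fixed, and a child of `w` goes to a
child of the image of `w`), which is self-similar and transitive on the words of length one. -/
def SelfSimilar (d : ℕ) (L : Type) [Group L] : Prop :=
  ∃ ρ : L →* Equiv.Perm (List (Fin d)),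
    Function.Injective ρ ∧ (∀ g, ρ g [] = []) ∧
    (∀ g w x, ∃ y, ρ g (w ++ [x]) = ρ g w ++ [y]) ∧
    (∀ g x, ∃ y h, ∀ w, ρ g (x :: w) = y :: ρ h w) ∧
    (∀ x y : Fin d, ∃ g, ρ g [x] = [y])

/-- For every prime `p` there is a finitely generated pro-`p` group which is strongly hereditarily
self-similar of index `p` and carries no `p`-adic analytic group structure. -/
theorem result (p : ℕ) [Fact p.Prime] :
    ∃ (G : Type) (_ : Group G) (_ : TopologicalSpace G) (_ : IsTopologicalGroup G)
      (_ : CompactSpace G) (_ : T2Space G) (_ : TotallyDisconnectedSpace G),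
      (∀ N : Subgroup G, N.Normal → IsOpen (N : Set G) → ∃ k : ℕ, N.index = p ^ k) ∧
      (∃ T : Finset G, (Subgroup.closure (T : Set G)).topologicalClosure = ⊤) ∧
      SelfSimilar p G ∧
      (∀ L : Subgroup G, L ≠ ⊥ →
        (∃ T : Finset G, (Subgroup.closure (T : Set G)).topologicalClosure = L) →
        SelfSimilar p L) ∧
      ¬ ∃ (n : ℕ) (_ : ChartedSpace (Fin n → ℚ_[p]) G),
        LieGroup 𝓘(ℚ_[p], Fin n → ℚ_[p]) ω G := by
  open Pool.Agent.Lib.MP_2dbb30_al PowerSeries.WithPiTopology in
  have hp : p ≠ 0 := (Fact.out : p.Prime).ne_zero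
  open Pool.Agent.Lib.MP_2dbb30_al PowerSeries.WithPiTopology in
  refine ⟨SD p (S p), inferInstance, inferInstance, inferInstance, inferInstance, inferInstance,
    inferInstance, pro_p, fin_gen, ?_, fun L hne hfg => action_of_SS hp (hereditary L hne hfg),
    not_analytic⟩
  open Pool.Agent.Lib.MP_2dbb30_al PowerSeries.WithPiTopology in
  exact action_top hp

end Pool.Agent.Results.MP_2dbb30_al.AllPrimes
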