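import Pool.Statements.S01069
import Pool.Agent.Lib.MP_2dbb30_al.Main

set_option autoImplicit false
open Pool Pool.MP_2dbb30_al

namespace Pool.Agent.S01069

/-- There is a prime p and a finitely generated pro-p group whose every nontrivial finitely generated closed subgroup (G included) has a trivial-core virtual endomorphism on an index-p subgroup, yet the group has infinite rank (so is not p-adic analytic). -/
theorem result :
  ∃ (p : ℕ) (G : Type) (_ : Group G) (_ : TopologicalSpace G) (_ : IsTopologicalGroup G)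
    (_ : CompactSpace G) (_ : T2Space G) (_ : TotallyDisconnectedSpace G),
    p.Prime ∧
    (∀ N : Subgroup G, N.Normal → IsOpen (N : Set G) → ∃ k : ℕ, N.index = p ^ k) ∧
    (∃ S : Finset G, (Subgroup.closure (S : Set G)).topologicalClosure = ⊤) ∧
    (∀ L : Subgroup G, L ≠ ⊥ →
      (∃ S : Finset G, (Subgroup.closure (S : Set G)).topologicalClosure = L) →
      ∃ H : Subgroup G, H ≤ L ∧ IsClosed (H : Set G) ∧ (H.subgroupOf L).index = p ∧
        ∃ f : H →* G, Continuous f ∧ (∀ h : H, f h ∈ L) ∧
          ∀ K : Subgroup G, ∀ hKH : K ≤ H,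
            (∀ l ∈ L, ∀ k ∈ K, l * k * l⁻¹ ∈ K) →
            (∀ k : G, ∀ hk : k ∈ K, f ⟨k, hKH hk⟩ ∈ K) → K = ⊥) ∧
    ¬ ∃ r : ℕ, ∀ L : Subgroup G, IsClosed (L : Set G) →
      ∃ S : Finset G, S.card ≤ r ∧ (Subgroup.closure (S : Set G)).topologicalClosure = L := by
  open Pool.Agent.Lib.MP_2dbb30_al PowerSeries.WithPiTopology in
  exact ⟨2, SD 2 (S 2), inferInstance, inferInstance, inferInstance, inferInstance, inferInstance,
    inferInstance, Nat.prime_two, pro_p, fin_gen, hereditary, infinite_rank⟩

end Pool.Agent.S01069
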