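import Pool.Agent.Lib.MP_2dbb30_al.TF.Main

set_option autoImplicit false

open scoped Manifold ContDiff

namespace Pool.Agent.Results.MP_2dbb30_al.SolvableTorsionFree

open Pool.Agent.Lib.MP_2dbb30_al.TF

/-- A finitely generated torsion-free solvable pro-`p` group all of whose nontrivial finitely
generated closed subgroups are self-similar of index `p` is `p`-adic analytic. -/
theorem result (p : ℕ) [Fact p.Prime] (G : Type*) [Group G] [TopologicalSpace G]
    [IsTopologicalGroup G] [CompactSpace G] [T2Space G] [TotallyDisconnectedSpace G]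
    (hp : ∀ N : Subgroup G, N.Normal → IsOpen (N : Set G) → ∃ k : ℕ, N.index = p ^ k)
    (hfg : ∃ T : Finset G, (Subgroup.closure (T : Set G)).topologicalClosure = ⊤)
    (hsol : Group.IsSolvable G) (htf : ∀ g : G, IsOfFinOrder g → g = 1)
    (hss : ∀ L : Subgroup G, L ≠ ⊥ →
      (∃ T : Finset G, (Subgroup.closure (T : Set G)).topologicalClosure = L) → SelfSimilar p L) :
    ∃ (n : ℕ) (_ : ChartedSpace (Fin n → ℚ_[p]) G),
      LieGroup 𝓘(ℚ_[p], Fin n → ℚ_[p]) ω G := by
  classical
  refine main hp hfg htf fun a b ha => ve_of_selfSimilar hp _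
    (Subgroup.isClosed_topologicalClosure _) (hss _ (fun h => ha ?_) ⟨{a, b}, by simp⟩)
  have : a ∈ (Subgroup.closure ({a, b} : Set G)).topologicalClosure :=
    Subgroup.le_topologicalClosure _ (Subgroup.subset_closure (by simp))
  rwa [h, Subgroup.mem_bot] at this

end Pool.Agent.Results.MP_2dbb30_al.SolvableTorsionFree
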